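import Pool.Agent.H66.CBE.ITR
import Pool.Agent.H23.CBE.PER
import Pool.Agent.H93.CBE.ADR
import Pool.Agent.H25.CBE.CHI
import Pool.Agent.H48.CBE.CAU
import Pool.Agent.H65.CBE.LGH
import Pool.Agent.H62.CBE.UBD
import Pool.Agent.H16.CBE.UKB
import Pool.Agent.H97.CBE.UKL
import Pool.Agent.H86.CBE.SDF
import Pool.Agent.H1.CBE.FEQ
import Pool.Agent.H51.CBE.HPR
import Pool.Agent.H33.CBE.HDA
import Pool.Agent.H58.CBE.SHL
import Pool.Agent.H38.CBE.HDB
import Pool.Agent.H52.CBE.HHL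
import Pool.Agent.H45.CBE.DLB
import Pool.Agent.H80.CBE.VAR
import Pool.Agent.H46.CBE.GRD
import Pool.Agent.H63.CBE.CST
import Pool.Agent.H22.CBE.FDR
import Pool.Agent.H17.CBE.CHT
import Pool.Agent.H36.CBE.PKB
import Pool.Agent.H74.CBE.PCA
import Pool.Agent.H14.CBE.PCB
import Pool.Agent.H85.CBE.PCK
import Pool.Agent.H31.CBE.COF
import Pool.Agent.H31.CBE.GEX
import Pool.Agent.H72.CBE.GSM
import Pool.Agent.H24.CBE.DOM
import Pool.Agent.H99.CBE.PRX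
import Pool.Agent.H93.CBE.LLA
import Pool.Agent.H1.CBE.EUL
import Pool.Agent.H12.CBE.TRA
import Pool.Agent.H21.CBE.NET
import Pool.Agent.H17.CBE.ORT
import Pool.Agent.H70.CBE.FBD
import Pool.Agent.H83.CBE.CONx
import Pool.Agent.H91.CBE.EXD
import Pool.Agent.H55.CBE.THM

/-!
# Board CBE: assembly
-/

set_option autoImplicit false

open Set Filter Topology

namespace Pool.CBE

theorem f_ITR : ITRStmt := iTR
theorem f_PER : PERStmt := PER_thm
theorem f_ADR : ADRStmt := ADR_thm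
theorem f_CHI : CHIStmt := CHI_thm f_PER f_ITR f_ADR
theorem f_CAU : CAUStmt := CAU_thm
theorem f_LGH : LGHStmt := LGH_thm f_CAU
theorem f_UBD : UBDStmt := UBD_thm
theorem f_UKB : UKBStmt := UKB_thm f_ITR f_CHI f_LGH f_UBD
theorem f_UKL : UKLStmt := UKL_thm f_UKB
theorem f_SDF : SDFStmt := SDF_thm f_UKL f_UBD f_ITR
theorem f_FEQ : FEQStmt := feq_thm f_UBD f_ITR
theorem f_HPR : HPRStmt := HPR_thm f_FEQ
theorem f_HDA : HDAStmt := HDA_thm f_SDF f_FEQ f_HPR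
theorem f_SHL : SHLStmt := SHL_thm f_UKL f_SDF
theorem f_HDB : HDBStmt := HDB_thm f_SDF f_SHL f_FEQ f_HDA
theorem f_HHL : HHLStmt := HHL_thm f_HDA f_HDB
theorem f_DLB : DLBStmt := DLB_thm f_PER
theorem f_VAR : VARStmt := VAR_thm f_PER f_DLB
theorem f_GRD : GRDStmt := GRD_thm
theorem f_CST : CSTStmt := CST_thm
theorem f_FDR : FDRStmt := FDR_thm
theorem f_CHT : CHTStmt := CHT_thm f_PER f_DLB
theorem f_PKB : PKBStmt := PKB_thm
theorem f_PCA : PCAStmt := PCA_thm f_CHT f_PKB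
theorem f_PCB : PCBStmt := PCB_thm f_DLB f_PKB
theorem f_PCK : PCKStmt := PCK_thm f_DLB f_PCA f_PCB
theorem f_COF : COFStmt := COF_thm f_DLB
theorem f_GEX : GEXStmt := GEX_thm
theorem f_GSM : GSMStmt := GSM_thm f_PCK f_COF f_GEX
theorem f_DOM : DOMStmt := DOM_thm f_HPR f_HDA f_HHL
theorem f_PRX : PRXStmt := PRX_thm
theorem f_LLA : LLAStmt := LLA_thm f_DLB f_PCK f_COF f_GRD f_PRX
theorem f_EUL : EULStmt := eul_thm
theorem f_TRA : TRAStmt := TRA_thm f_PER f_EUL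
theorem f_NET : NETStmt := NET_thm f_DLB f_PCK
theorem f_ORT : ORTStmt := ORT_thm f_PER
theorem f_FBD : FBDStmt := FBD_thm f_GSM f_FDR f_ORT
theorem f_CON : CONStmt := CON_thm f_DLB f_NET f_FDR f_FBD f_VAR f_LLA f_CST
theorem f_EXD : EXDStmt := EXD_thm
theorem f_THM : THMStmt := THM_thm f_CON f_FDR f_TRA f_EXD f_DOM

end Pool.CBE
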