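import Mathlib

/-!
# Board CBE: bounded domains of ℂⁿ with `C^{1,a}` boundary and non-injective proper self-maps (MP_e1af46)

THEOREM.  For every `n ≥ 2` and every `0 < a < 1` there are a bounded domain `D = {ρ < 0}` of `ℂⁿ`,
`ρ` of class `C¹` on `ℂⁿ`, `dρ` locally Hölder continuous with exponent `a`, `dρ ≠ 0` on `{ρ = 0}`, and
a proper holomorphic map `D → D` which is not injective (a homogeneous polynomial map).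

PART A (rows PER ... CON).  There are `η > 0`, `C` depending only on `n` such that for every `d ≥ 2`
there is a homogeneous polynomial map `f z = ∑_{ζ ∈ T} ⟨ζ, z⟩ ^ d w_ζ` of degree `d` with
`η ≤ ‖f z‖ ≤ C` on the unit sphere and `‖Df z v‖ ≤ C √d ‖v‖` for `‖z‖ = 1`, `v ⊥ z`.  Here `T` is a
maximal `1/√d`-separated set of the projective space, and the `w_ζ` are found by the local lemma.

PART B (rows ITR ... DOM).  So `f` acts on the projective space with derivative at most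
`θ = C √d / η`, and `θ ^ (1 + a) < d` for large `d`.  With `u z = log ‖f z‖² - d log ‖z‖²`,
`S = ∑ k, u ∘ fᵏ / d^(k+1)`, `H z = ‖z‖² e^{S z}`: `H (f z) = (H z)^d`, and the derivatives of
`u ∘ fᵏ` are bounded by `C θᵏ` and Lipschitz with constant `C θ^(2k)`, so `dS` is `a`-Hölder.
`D = {H < 1}`.
-/

set_option autoImplicit false

open Set Filter Topology

namespace Pool.CBE

/-- `ℂⁿ` with the Euclidean norm -/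
abbrev E (n : ℕ) : Type := EuclideanSpace ℂ (Fin n)

/-- the component of `v` orthogonal to `z` -/
noncomputable def perp {n : ℕ} (z v : E n) : E n :=
  v - ((inner ℂ z v : ℂ) / ((‖z‖ ^ 2 : ℝ) : ℂ)) • z

/-- for unit vectors: the sine of the angle of the two complex lines -/
noncomputable def dl {n : ℕ} (z w : E n) : ℝ := ‖perp z w‖

/-- the length of `v` as a tangent vector of the projective space at `z` -/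
noncomputable def q {n : ℕ} (z v : E n) : ℝ := ‖perp z v‖ / ‖z‖

/-- `s`-separated finite sets of unit vectors -/
def Sep {n : ℕ} (s : ℝ) (T : Finset (E n)) : Prop :=
  (∀ x ∈ T, ‖x‖ = 1) ∧ ∀ x ∈ T, ∀ y ∈ T, x ≠ y → s ≤ dl x y

/-- nets -/
def Net {n : ℕ} (s : ℝ) (T : Finset (E n)) : Prop :=
  Sep s T ∧ ∀ z : E n, ‖z‖ = 1 → ∃ x ∈ T, dl x z < s

open Classical in
/-- the elements of `T` near `z` -/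
noncomputable def near {n : ℕ} (T : Finset (E n)) (z : E n) (t : ℝ) : Finset (E n) :=
  T.filter fun x => dl z x ≤ t

/-- the map `z ↦ ∑ ⟨ζ, z⟩ ^ d w ζ` -/
noncomputable def fm {n : ℕ} (d : ℕ) (T : Finset (E n)) (w : E n → E n) (z : E n) : E n :=
  ∑ ζ ∈ T, (inner ℂ ζ z : ℂ) ^ d • w ζ

/-! ## Part A: geometry -/

/-- PER: facts about `perp`. -/
def PERStmt : Prop :=
  (∀ (n : ℕ) (z v : E n), z ≠ 0 → (inner ℂ z (perp z v) : ℂ) = 0) ∧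
  (∀ (n : ℕ) (z v : E n), z ≠ 0 →
    ‖perp z v‖ ^ 2 = ‖v‖ ^ 2 - ‖(inner ℂ z v : ℂ)‖ ^ 2 / ‖z‖ ^ 2) ∧
  (∀ (n : ℕ) (z v : E n) (c : ℂ), z ≠ 0 → ‖perp z v‖ ≤ ‖v - c • z‖) ∧
  (∀ (n : ℕ) (z v w : E n) (c : ℂ), perp z (v + w) = perp z v + perp z w ∧
    perp z (c • v) = c • perp z v) ∧
  (∀ (n : ℕ) (z : E n), z ≠ 0 → perp z z = 0) ∧
  (∀ (n : ℕ) (z v : E n) (c : ℂ), c ≠ 0 → perp (c • z) v = perp z v)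

/-- DLB: facts about `dl`.  Needs PER. -/
def DLBStmt : Prop :=
  ∀ (n : ℕ) (x y : E n), ‖x‖ = 1 → ‖y‖ = 1 →
    dl x y ^ 2 = 1 - ‖(inner ℂ x y : ℂ)‖ ^ 2 ∧ dl x y = dl y x ∧ 0 ≤ dl x y ∧ dl x y ≤ 1 ∧
    dl x y ≤ ‖x - y‖

/-- ORT: Proof: `⟨ζ, v⟩ = ⟨perp z ζ, v⟩`.  Needs PER. -/
def ORTStmt : Prop :=
  ∀ (n : ℕ) (z ζ v : E n), ‖z‖ = 1 → (inner ℂ z v : ℂ) = 0 → ‖(inner ℂ ζ v : ℂ)‖ ≤ dl z ζ * ‖v‖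

/-- CHT: the affine chart at `z`.  Proof: `⟨z, x⟩ ≠ 0` since `‖⟨z, x⟩‖² = 1 - dl² ≥ 3/4`; `φ x` is
`perp z x / ⟨z, x⟩`; `dl x y ≤ ‖y - c • x‖` for `c = ⟨z, y⟩ / ⟨z, x⟩` (PER), which is
`|⟨z, y⟩| ‖φ y - φ x‖`.  Needs PER DLB. -/
def CHTStmt : Prop :=
  ∀ (n : ℕ) (z x y : E n), ‖z‖ = 1 → ‖x‖ = 1 → ‖y‖ = 1 → dl z x ≤ 1 / 2 → dl z y ≤ 1 / 2 →
    (inner ℂ z ((inner ℂ z x : ℂ)⁻¹ • x - z) : ℂ) = 0 ∧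
    ‖(inner ℂ z x : ℂ)⁻¹ • x - z‖ ≤ 2 * dl z x ∧
    dl x y ≤ ‖((inner ℂ z x : ℂ)⁻¹ • x - z) - ((inner ℂ z y : ℂ)⁻¹ • y - z)‖

/-- PKB: packing.  Proof: the balls of radius `s / 2` are disjoint and lie in the ball of radius
`R + s / 2`; volumes (`MeasureTheory.Measure.addHaar_ball`). -/
def PKBStmt : Prop :=
  ∀ (F : Type) [NormedAddCommGroup F] [NormedSpace ℝ F] [FiniteDimensional ℝ F]
    (T : Finset F) (R s : ℝ), 0 < s → 0 ≤ R → (∀ x ∈ T, ‖x‖ ≤ R) →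
    (∀ x ∈ T, ∀ y ∈ T, x ≠ y → s ≤ ‖x - y‖) →
    (T.card : ℝ) ≤ (1 + 2 * R / s) ^ (Module.finrank ℝ F)

/-- PCA: packing near a point.  Proof: PKB in the orthogonal complement of `ℂ z` (real dimension
`2 n - 2`), with `R = 2 t`, for the images under the chart CHT.  Needs CHT PKB. -/
def PCAStmt : Prop :=
  ∀ (n : ℕ) (s t : ℝ) (T : Finset (E n)) (z : E n), 2 ≤ n → 0 < s → 0 ≤ t → t ≤ 1 / 2 → Sep s T →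
    ‖z‖ = 1 → ((near T z t).card : ℝ) ≤ (1 + 4 * t / s) ^ (2 * n - 2)

/-- PCB: a net for `1/2`.  Proof: a set `Y` with `Sep (1/2) Y` has at most `(1 + 4) ^ (2 n)` elements
by PKB and `dl ≤ ‖x - y‖`; take one of maximal cardinality.  Needs DLB PKB. -/
def PCBStmt : Prop :=
  ∀ n : ℕ, ∃ Y : Finset (E n), Net (1 / 2) Y ∧ Y.card ≤ 5 ^ (2 * n)

/-- PCK: packing.  Proof: `t ≤ 1/2`: PCA.  `t > 1/2`: `T` is covered by the sets `near T y (1/2)`,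
`y ∈ Y`.  Needs DLB PCA PCB. -/
def PCKStmt : Prop :=
  ∀ (n : ℕ) (s t : ℝ) (T : Finset (E n)) (z : E n), 2 ≤ n → 0 < s → 0 ≤ t → Sep s T → ‖z‖ = 1 →
    ((near T z t).card : ℝ) ≤ 5 ^ (2 * n) * (1 + 4 * t / s) ^ (2 * n - 2)

/-- NET: Proof: `Sep s T` bounds the cardinality (PCK with `t = 1`, `dl ≤ 1`); take a set of maximal
cardinality.  Needs DLB PCK. -/
def NETStmt : Prop :=
  ∀ (n : ℕ) (s : ℝ), 2 ≤ n → 0 < s → ∃ T : Finset (E n), Net s T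

/-- COF: Proof: `‖⟨ζ, z⟩‖² = 1 - dl² ≤ exp (- dl²)`; `(1 - 1/d)^(d/2) ≥ 1 - (d/2)(1/d) = 1/2`
(Bernoulli for real powers, `one_add_mul_self_le_rpow_one_add`, exponent `d / 2 ≥ 1`).
Needs DLB. -/
def COFStmt : Prop :=
  ∀ (n : ℕ) (z ζ : E n), ‖z‖ = 1 → ‖ζ‖ = 1 →
    (∀ k : ℕ, ‖(inner ℂ ζ z : ℂ)‖ ^ k ≤ Real.exp (-(k * dl z ζ ^ 2) / 2)) ∧
    ∀ d : ℕ, 2 ≤ d → dl z ζ ≤ 1 / √(d : ℝ) → 1 / 2 ≤ ‖(inner ℂ ζ z : ℂ)‖ ^ d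

/-- GEX. -/
def GEXStmt : Prop :=
  ∀ p : ℕ, ∃ C : ℝ, 0 < C ∧ ∀ y : ℝ, 0 ≤ y → (1 + y) ^ p * Real.exp (-y ^ 2 / 4) ≤ C

/-- GSM: sums over separated sets.  Proof: let `y = √d dl`.  `‖⟨ζ, z⟩‖^(d-1) ≤ exp (- y² / 4)` (COF and
`(d - 1) / d ≥ 1 / 2`), so the term is at most `C₀ / (1 + y)^(2 n)` (GEX with `p = 6 n`).  Group by
`m = ⌊y⌋`: at most `5^(2n) (5 + 4 m)^(2n-2)` terms (PCK, `t = (m + 1) / √d`), so the sum is at most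
`C₁ ∑ m, 1 / (1 + m)^2`.  Needs PCK COF GEX. -/
def GSMStmt : Prop :=
  ∀ n : ℕ, 2 ≤ n → ∃ C : ℝ, 0 < C ∧ ∀ (d : ℕ) (T : Finset (E n)) (z : E n), 2 ≤ d →
    Sep (1 / √(d : ℝ)) T → ‖z‖ = 1 →
    ∑ ζ ∈ T, (1 + √(d : ℝ) * dl z ζ) ^ (4 * n) * ‖(inner ℂ ζ z : ℂ)‖ ^ (d - 1) ≤ C

/-! ## Part A: the maps -/

/-- FDR: elementary facts. -/
def FDRStmt : Prop :=
  ∀ (n d : ℕ) (T : Finset (E n)) (w : E n → E n), 1 ≤ d →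
    ContDiff ℂ 2 (fm d T w) ∧ (∀ (c : ℂ) (z : E n), fm d T w (c • z) = c ^ d • fm d T w z) ∧
    ∀ z v : E n, fderiv ℂ (fm d T w) z v =
      ∑ ζ ∈ T, ((d : ℂ) * (inner ℂ ζ z : ℂ) ^ (d - 1) * (inner ℂ ζ v : ℂ)) • w ζ

/-- FBD: bounds.  Proof: `C = 2 n C₀ + 1` with `C₀` of GSM; for the derivative use ORT and
`√d dl ≤ (1 + √d dl)^(4n)`; for the last use `K^(4n) ≤ (1 + √d dl)^(4n)` on the terms of the sum.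
Needs GSM FDR ORT. -/
def FBDStmt : Prop :=
  ∀ n : ℕ, 2 ≤ n → ∃ C : ℝ, 1 ≤ C ∧ ∀ (d : ℕ) (T : Finset (E n)) (w : E n → E n), 2 ≤ d →
    Sep (1 / √(d : ℝ)) T → (∀ ζ, ‖w ζ‖ ≤ 2 * n) →
    (∀ z : E n, ‖z‖ = 1 → ‖fm d T w z‖ ≤ C) ∧
    (∀ z v : E n, ‖z‖ = 1 → (inner ℂ z v : ℂ) = 0 →
      ‖fderiv ℂ (fm d T w) z v‖ ≤ C * √(d : ℝ) * ‖v‖) ∧
    ∀ (K : ℕ) (z : E n), 1 ≤ K → ‖z‖ = 1 →
      ‖fm d T w z - fm d (near T z (K / √(d : ℝ))) w z‖ ≤ C / (K : ℝ) ^ (4 * n)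

/-- VAR: Proof: let `c = ⟨x, z⟩`, `δ = dl x z`; if `δ = 0` then `z = c x`.  Otherwise
`y = (z - c x) / δ` is a unit vector with `⟨x, y⟩ = 0`; multiplying `z` by a number of modulus one
(which changes neither `‖f z‖` nor `dl x z`) let `c ≥ 0`.  Let `γ t = cos t x + sin t y`:
`‖γ t‖ = 1`, `⟨γ t, γ' t⟩ = 0`, `‖γ' t‖ = 1`, `γ 0 = x`, `γ (arcsin δ) = z`, and
`arcsin δ ≤ 2 δ` (`Real.mul_le_sin`).  Mean value inequality for `f ∘ γ`.  Needs PER DLB. -/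
def VARStmt : Prop :=
  ∀ (n d : ℕ) (f : E n → E n) (C : ℝ), 1 ≤ d → 0 ≤ C → ContDiff ℂ 2 f →
    (∀ (c : ℂ) (z : E n), f (c • z) = c ^ d • f z) →
    (∀ z v : E n, ‖z‖ = 1 → (inner ℂ z v : ℂ) = 0 → ‖fderiv ℂ f z v‖ ≤ C * √(d : ℝ) * ‖v‖) →
    ∀ x z : E n, ‖x‖ = 1 → ‖z‖ = 1 → ‖f x‖ ≤ ‖f z‖ + 2 * C * √(d : ℝ) * dl x z

/-- GRD: a grid.  Proof: `m = ⌈1 / t⌉₊`, the vectors with coordinates `(a + b i) / m`, `a, b < m`,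
`r = m ^ (2 n)`.  A real interval of length `2 t` contains at most `2 t m + 1 ≤ 3 t m` of the numbers
`a / m`. -/
def GRDStmt : Prop :=
  ∀ (n : ℕ) (t : ℝ), 0 < t → ∃ r : ℕ, 0 < r ∧ ∃ g : Fin r → E n, (∀ i, ‖g i‖ ≤ 2 * n) ∧
    ∀ b : E n, (Nat.card {i : Fin r // ‖g i - b‖ < t} : ℝ) ≤ (3 * t) ^ (2 * n) * r

/-- PRX: Proof: fix the values of `w` off `i0`: `‖a + c • g j‖ < t` gives `‖g j + c⁻¹ • a‖ < 2 t`. -/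
def PRXStmt : Prop :=
  ∀ (n r : ℕ) (g : Fin r → E n) (t P : ℝ),
    (∀ b : E n, (Nat.card {i : Fin r // ‖g i - b‖ < 2 * t} : ℝ) ≤ P * r) →
    ∀ (ι : Type) [Fintype ι] (c : ι → ℂ) (i0 : ι), 1 / 2 ≤ ‖c i0‖ →
      (Nat.card {w : ι → Fin r // ‖∑ i, c i • g (w i)‖ < t} : ℝ) ≤ P * (r : ℝ) ^ Fintype.card ι

/-- LLA: Proof: `Pool.H15.Univ.local_lemma` in `Pool/Agent/H74/UnivM2.lean` with `ι = T`, `E = X`,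
`g`, `r` from GRD with `t = 6 η`, `w ζ = g (f ζ)` for `ζ ∈ T` (and `0` otherwise), `vars x` the
elements of `near T x (K/√d)` (at most `5^(2n) (1+4K)^(2n-2)`; this is `R + 1`); `ζ ∈ T` is in at
most `5^(2n) (1 + 8 K^(4n+1))^(2n-2)` of them (PCK for `near X ζ (K/√d)`, `dl` is symmetric);
the number of bad `f` is at most `(18 η)^(2n) r^|T|` (PRX with `t = 3 η`, `c ζ = ⟨ζ, x⟩^d` for
`ζ ∈ near T x (K/√d)` and `0` otherwise, `i0` with `dl i0 x < 1/√d`, COF).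
Needs DLB PCK COF GRD PRX. -/
def LLAStmt : Prop :=
  ∀ (n K d : ℕ) (η : ℝ) (T X : Finset (E n)), 2 ≤ n → 1 ≤ K → 2 ≤ d → 0 < η →
    3 * (5 ^ (2 * n) * (1 + 4 * (K : ℝ)) ^ (2 * n - 2)) *
      (5 ^ (2 * n) * (1 + 8 * (K : ℝ) ^ (4 * n + 1)) ^ (2 * n - 2)) * (18 * η) ^ (2 * n) ≤ 1 →
    Net (1 / √(d : ℝ)) T → Sep (1 / (2 * (K : ℝ) ^ (4 * n) * √(d : ℝ))) X →
    ∃ w : E n → E n, (∀ ζ, ‖w ζ‖ ≤ 2 * n) ∧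
      ∀ x ∈ X, 3 * η ≤ ‖fm d (near T x (K / √(d : ℝ))) w x‖

/-- CST: Proof: the expression is at most `B * K ^ (-(4n+4))` with `B` independent of `K`
(`1 + 4 K ≤ 5 K`, `1 + 8 K^(4n+1) ≤ 9 K^(4n+1)`; `(2n-2)(4n+2) - 8 n² = -(4n+4)`). -/
def CSTStmt : Prop :=
  ∀ (n : ℕ) (C : ℝ), 2 ≤ n → 1 ≤ C → ∃ K : ℕ, 1 ≤ K ∧
    3 * (5 ^ (2 * n) * (1 + 4 * (K : ℝ)) ^ (2 * n - 2)) *
      (5 ^ (2 * n) * (1 + 8 * (K : ℝ) ^ (4 * n + 1)) ^ (2 * n - 2)) *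
      (18 * (C / (K : ℝ) ^ (4 * n))) ^ (2 * n) ≤ 1

/-- CON: conclusion of part A.  Proof: `C` from FBD, `K` from CST, `η = C / K^(4n)`, nets `T`, `X` with
the spacings of LLA (NET).  On `X`: `‖f x‖ ≥ 3 η - η`; for `‖z‖ = 1` take `x ∈ X` near `z` and VAR.
Needs DLB NET FDR FBD VAR LLA CST. -/
def CONStmt : Prop :=
  ∀ n : ℕ, 2 ≤ n → ∃ η C : ℝ, 0 < η ∧ η ≤ C ∧ ∀ d : ℕ, 2 ≤ d →
    ∃ (T : Finset (E n)) (w : E n → E n),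
      (∀ z : E n, ‖z‖ = 1 → η ≤ ‖fm d T w z‖ ∧ ‖fm d T w z‖ ≤ C) ∧
      ∀ z v : E n, ‖z‖ = 1 → (inner ℂ z v : ℂ) = 0 →
        ‖fderiv ℂ (fm d T w) z v‖ ≤ C * √(d : ℝ) * ‖v‖

/-! ## Part B -/

/-- the hypotheses on the map -/
structure Hyp {n : ℕ} (f : E n → E n) (d : ℕ) (η C θ a : ℝ) : Prop where
  hn : 2 ≤ n
  hd : 2 ≤ d
  cd : ContDiff ℂ 2 f
  hom : ∀ (c : ℂ) (z : E n), f (c • z) = c ^ d • f z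
  hη : 0 < η
  hC : η ≤ C
  lo : ∀ z : E n, η * ‖z‖ ^ d ≤ ‖f z‖
  up : ∀ z : E n, ‖f z‖ ≤ C * ‖z‖ ^ d
  hθ : 1 ≤ θ
  ex : ∀ z v : E n, z ≠ 0 → q (f z) (fderiv ℂ f z v) ≤ θ * q z v
  ha0 : 0 < a
  ha1 : a < 1
  hθa : θ ^ (1 + a) < d

/-- `log ‖f z‖² - d log ‖z‖²` -/
noncomputable def u {n : ℕ} (f : E n → E n) (d : ℕ) (z : E n) : ℝ :=
  Real.log (‖f z‖ ^ 2) - d * Real.log (‖z‖ ^ 2)

/-- the sum -/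
noncomputable def S {n : ℕ} (f : E n → E n) (d : ℕ) (z : E n) : ℝ :=
  ∑' k : ℕ, u f d (f^[k] z) / (d : ℝ) ^ (k + 1)

/-- the function of the domain -/
noncomputable def H {n : ℕ} (f : E n → E n) (d : ℕ) (z : E n) : ℝ :=
  ‖z‖ ^ 2 * Real.exp (S f d z)

/-- EUL: derivatives of homogeneous maps.  Proof: differentiate `f (c z) = c^d f z` in `c` at `1`, and
in `z`. -/
def EULStmt : Prop :=
  ∀ (n d : ℕ) (f : E n → E n), 1 ≤ d → ContDiff ℂ 2 f →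
    (∀ (c : ℂ) (z : E n), f (c • z) = c ^ d • f z) →
    (∀ z : E n, fderiv ℂ f z z = (d : ℂ) • f z) ∧
    ∀ (c : ℂ) (z v : E n), c ≠ 0 → fderiv ℂ f (c • z) v = c ^ (d - 1) • fderiv ℂ f z v

/-- TRA: from part A to `Hyp`.  Proof: the first by homogeneity.  The second: by EUL both sides are
invariant under `z ↦ c z`, `v ↦ c v`, so let `‖z‖ = 1`.  `v = ⟨z, v⟩ z + perp z v` and
`Df z z = d f z`, so `perp (f z) (Df z v) = perp (f z) (Df z (perp z v))`, of norm at most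
`C √d ‖perp z v‖`, and `‖f z‖ ≥ η`.  Needs PER EUL. -/
def TRAStmt : Prop :=
  ∀ (n d : ℕ) (f : E n → E n) (η C : ℝ), 2 ≤ d → 0 < η → ContDiff ℂ 2 f →
    (∀ (c : ℂ) (z : E n), f (c • z) = c ^ d • f z) →
    (∀ z : E n, ‖z‖ = 1 → η ≤ ‖f z‖ ∧ ‖f z‖ ≤ C) →
    (∀ z v : E n, ‖z‖ = 1 → (inner ℂ z v : ℂ) = 0 → ‖fderiv ℂ f z v‖ ≤ C * √(d : ℝ) * ‖v‖) →
    (∀ z : E n, η * ‖z‖ ^ d ≤ ‖f z‖ ∧ ‖f z‖ ≤ C * ‖z‖ ^ d) ∧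
    ∀ z v : E n, z ≠ 0 → q (f z) (fderiv ℂ f z v) ≤ C * √(d : ℝ) / η * q z v

/-- EXD: the choice of `d`. -/
def EXDStmt : Prop :=
  ∀ κ a : ℝ, 1 ≤ κ → 0 < a → a < 1 → ∃ d : ℕ, 2 ≤ d ∧ (κ * √(d : ℝ)) ^ (1 + a) < d

/-- ITR: iterates. -/
def ITRStmt : Prop :=
  ∀ (n : ℕ) (f : E n → E n) (d : ℕ) (η C θ a : ℝ), Hyp f d η C θ a → ∀ k : ℕ,
    ContDiff ℂ 2 (f^[k]) ∧ (∀ z : E n, z ≠ 0 → f^[k] z ≠ 0) ∧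
    (∀ (c : ℂ) (z : E n), f^[k] (c • z) = c ^ (d ^ k) • f^[k] z) ∧
    ∀ z v : E n, z ≠ 0 → q (f^[k] z) (fderiv ℂ (f^[k]) z v) ≤ θ ^ k * q z v

/-- ADR: the derivative of `A w = ‖⟨e, w⟩‖² / ‖w‖²`.  Proof: `DA w ω = DA w (perp w ω)` since `A` is
invariant under complex scaling (or compute), and `D(‖w‖²) (perp w ω) = 2 Re ⟨w, perp w ω⟩ = 0`, so it
is `2 Re (conj ⟨e, w⟩ ⟨e, perp w ω⟩) / ‖w‖²`.  Needs PER. -/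
def ADRStmt : Prop :=
  ∀ (n : ℕ) (e w : E n), ‖e‖ = 1 → w ≠ 0 →
    DifferentiableAt ℝ (fun y : E n => ‖(inner ℂ e y : ℂ)‖ ^ 2 / ‖y‖ ^ 2) w ∧
    ∀ ω : E n, |fderiv ℝ (fun y : E n => ‖(inner ℂ e y : ℂ)‖ ^ 2 / ‖y‖ ^ 2) w ω| ≤ 2 * q w ω

/-- CHI: Proof: let `A` be the function of ADR for this `e`; on the segment from `z₀` to `z` the
norm is at least `3/8`, and the derivative of `A ∘ fᵏ` in the direction `z - z₀` is at most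
`2 θᵏ q (·) (z - z₀) ≤ 2 θᵏ (1/8) θ^(-k) / (3/8) = 2/3` (`q y v ≤ ‖v‖ / ‖y‖`), `A (fᵏ z₀) = 1`, so
`A (fᵏ z) ≥ 1/3`.  Needs PER ITR ADR. -/
def CHIStmt : Prop :=
  ∀ (n : ℕ) (f : E n → E n) (d : ℕ) (η C θ a : ℝ), Hyp f d η C θ a → ∀ (k : ℕ) (z₀ z : E n),
    1 / 2 ≤ ‖z₀‖ → ‖z - z₀‖ ≤ (1 / 8) / θ ^ k → z ≠ 0 ∧
    ‖f^[k] z‖ ≤ 2 * ‖(inner ℂ ((‖f^[k] z₀‖⁻¹ : ℝ) • f^[k] z₀) (f^[k] z) : ℂ)‖

/-- CAU: Cauchy estimates.  Proof: for `z ∈ ball z₀ (3 r / 4)` and `v` the function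
`s ↦ g (z + s v)` on the disc `‖s‖ ‖v‖ < r / 4` gives `‖Dg z v‖ ≤ 4 M ‖v‖ / r`
(`Complex.norm_deriv_le_of_forall_mem_sphere_norm_le`); the same for `z ↦ Dg z v` on
`ball z₀ (r / 2)` gives `16 M ‖v‖ / r²` for its derivative. -/
def CAUStmt : Prop :=
  ∀ (n : ℕ) (g : E n → E n) (z₀ : E n) (r M : ℝ), 0 < r → 0 ≤ M →
    ContDiffOn ℂ 2 g (Metric.ball z₀ r) → (∀ z ∈ Metric.ball z₀ r, ‖g z‖ ≤ M) →
    (∀ z ∈ Metric.ball z₀ (r / 2), ‖fderiv ℂ g z‖ ≤ 4 * M / r) ∧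
    ∀ z ∈ Metric.ball z₀ (r / 2), ∀ y ∈ Metric.ball z₀ (r / 2),
      ‖fderiv ℂ g z - fderiv ℂ g y‖ ≤ 16 * M / r ^ 2 * ‖z - y‖

/-- LGH: the logarithm.  Proof: the derivative is `2 Re ⟨g z, Dg z v⟩ / ‖g z‖²`; CAU; the ball is
convex, so `g` is Lipschitz with constant `4 M / r` on `ball z₀ (r/2)`.  Needs CAU. -/
def LGHStmt : Prop :=
  ∀ (n : ℕ) (m M : ℝ), 0 < m → m ≤ M → ∃ L : ℝ, 0 < L ∧
    ∀ (g : E n → E n) (z₀ : E n) (r : ℝ), 0 < r → ContDiffOn ℂ 2 g (Metric.ball z₀ r) →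
    (∀ z ∈ Metric.ball z₀ r, m ≤ ‖g z‖ ∧ ‖g z‖ ≤ M) →
    (∀ z ∈ Metric.ball z₀ (r / 2), DifferentiableAt ℝ (fun y => Real.log (‖g y‖ ^ 2)) z ∧
      ‖fderiv ℝ (fun y => Real.log (‖g y‖ ^ 2)) z‖ ≤ L / r) ∧
    ∀ z ∈ Metric.ball z₀ (r / 2), ∀ y ∈ Metric.ball z₀ (r / 2),
      ‖fderiv ℝ (fun y => Real.log (‖g y‖ ^ 2)) z - fderiv ℝ (fun y => Real.log (‖g y‖ ^ 2)) y‖ ≤
        L / r ^ 2 * ‖z - y‖

/-- UKB: Proof: `r = (1/8) / θᵏ`, `e = fᵏ z₀ / ‖fᵏ z₀‖`, `χ z = ⟨e, fᵏ z⟩⁻¹ • fᵏ z` on `ball z₀ r`: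
`1 ≤ ‖χ z‖ ≤ 2` (CHI), and `u (fᵏ z) = log ‖f (χ z)‖² - d log ‖χ z‖²` there; LGH for `χ`
(`m = 1`, `M = 2`) and `f ∘ χ` (`m = η`, `M = C 2^d`).  Needs ITR CHI LGH UBD. -/
def UKBStmt : Prop :=
  ∀ (n : ℕ) (f : E n → E n) (d : ℕ) (η C θ a : ℝ), Hyp f d η C θ a → ∃ L : ℝ, 0 < L ∧
    ∀ (k : ℕ) (z₀ : E n), 1 / 2 ≤ ‖z₀‖ →
    (∀ z ∈ Metric.ball z₀ ((1 / 16) / θ ^ k), DifferentiableAt ℝ (fun y => u f d (f^[k] y)) z ∧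
      ‖fderiv ℝ (fun y => u f d (f^[k] y)) z‖ ≤ L * θ ^ k) ∧
    ∀ z ∈ Metric.ball z₀ ((1 / 16) / θ ^ k), ∀ z' ∈ Metric.ball z₀ ((1 / 16) / θ ^ k),
      ‖fderiv ℝ (fun y => u f d (f^[k] y)) z - fderiv ℝ (fun y => u f d (f^[k] y)) z'‖ ≤
        L * θ ^ (2 * k) * ‖z - z'‖

/-- UKL: Proof: if `‖z - z'‖ < (1/16) / θᵏ` use UKB at `z`, otherwise
`2 L θᵏ ≤ 32 L θ^(2k) ‖z - z'‖`.  Needs UKB. -/
def UKLStmt : Prop :=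
  ∀ (n : ℕ) (f : E n → E n) (d : ℕ) (η C θ a : ℝ), Hyp f d η C θ a → ∃ L : ℝ, 0 < L ∧
    ∀ (k : ℕ) (z z' : E n), 1 / 2 ≤ ‖z‖ → 1 / 2 ≤ ‖z'‖ →
    DifferentiableAt ℝ (fun y => u f d (f^[k] y)) z ∧
    ‖fderiv ℝ (fun y => u f d (f^[k] y)) z‖ ≤ L * θ ^ k ∧
    ‖fderiv ℝ (fun y => u f d (f^[k] y)) z - fderiv ℝ (fun y => u f d (f^[k] y)) z'‖ ≤
      L * θ ^ (2 * k) * ‖z - z'‖

/-- UBD: Proof: `2 log η ≤ u ≤ 2 log C`. -/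
def UBDStmt : Prop :=
  ∀ (n : ℕ) (f : E n → E n) (d : ℕ) (η C θ a : ℝ), Hyp f d η C θ a →
    (∃ L : ℝ, 0 < L ∧ ∀ z : E n, z ≠ 0 → |u f d z| ≤ L) ∧
    ∀ (c : ℂ) (z : E n), c ≠ 0 → u f d (c • z) = u f d z

/-- SDF: the derivative of `S`.  Proof: near `z₀` with `1/2 < ‖z₀‖` use a small ball (convex) in this
open set and `hasFDerivAt_tsum_of_isPreconnected` with the bounds `L θᵏ / d^(k+1)`; `θ < d`.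
Needs UKL UBD ITR. -/
def SDFStmt : Prop :=
  ∀ (n : ℕ) (f : E n → E n) (d : ℕ) (η C θ a : ℝ), Hyp f d η C θ a → ∀ z : E n, 1 / 2 < ‖z‖ →
    DifferentiableAt ℝ (S f d) z ∧
    fderiv ℝ (S f d) z =
      ∑' k : ℕ, ((d : ℝ) ^ (k + 1))⁻¹ • fderiv ℝ (fun y => u f d (f^[k] y)) z

/-- SHL: Proof: the `k`-th terms differ by at most `min (2 L θᵏ, L θ^(2k) h) / d^(k+1)`, `h = ‖z - z'‖`,
and `min (p, q) ≤ p^(1-a) q^a ≤ 2 L θ^(k(1+a)) h^a`; geometric series with ratio `θ^(1+a) / d < 1`.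
Needs UKL SDF. -/
def SHLStmt : Prop :=
  ∀ (n : ℕ) (f : E n → E n) (d : ℕ) (η C θ a : ℝ), Hyp f d η C θ a → ∃ L : ℝ, 0 < L ∧
    ∀ z z' : E n, 1 / 2 < ‖z‖ → 1 / 2 < ‖z'‖ → ‖fderiv ℝ (S f d) z‖ ≤ L ∧
      ‖fderiv ℝ (S f d) z - fderiv ℝ (S f d) z'‖ ≤ L * ‖z - z'‖ ^ a

/-- FEQ: Proof: as for a geometric series; UBD.  Needs UBD ITR. -/
def FEQStmt : Prop :=
  ∀ (n : ℕ) (f : E n → E n) (d : ℕ) (η C θ a : ℝ), Hyp f d η C θ a →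
    (∃ L : ℝ, 0 < L ∧ ∀ z : E n, z ≠ 0 → |S f d z| ≤ L) ∧
    ∀ z : E n, z ≠ 0 → S f d z = u f d z / d + S f d (f z) / d ∧
      ∀ c : ℂ, c ≠ 0 → S f d (c • z) = S f d z

/-- HPR: Proof: `H (f z) = ‖f z‖² exp (S (f z))`, `‖f z‖² = ‖z‖^(2d) exp (u z)`,
`u z + S (f z) = d S z`.  Needs FEQ. -/
def HPRStmt : Prop :=
  ∀ (n : ℕ) (f : E n → E n) (d : ℕ) (η C θ a : ℝ), Hyp f d η C θ a →
    (∀ z : E n, H f d (f z) = H f d z ^ d) ∧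
    (∀ (c : ℂ) (z : E n), H f d (c • z) = ‖c‖ ^ 2 * H f d z) ∧
    ∃ m M : ℝ, 0 < m ∧ 0 < M ∧ ∀ z : E n, m * ‖z‖ ^ 2 ≤ H f d z ∧ H f d z ≤ M * ‖z‖ ^ 2

/-- HDA: Proof: `S` is differentiable off the origin (SDF and `S (t z) = S z`, FEQ); at the origin
`0 ≤ H ≤ M ‖z‖²`.  The second: differentiate `H (t z) = t² H z` in `z`.  Needs SDF FEQ HPR. -/
def HDAStmt : Prop :=
  ∀ (n : ℕ) (f : E n → E n) (d : ℕ) (η C θ a : ℝ), Hyp f d η C θ a →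
    (∀ z : E n, DifferentiableAt ℝ (H f d) z) ∧
    (∀ (t : ℝ) (z : E n), 0 < t → fderiv ℝ (H f d) (t • z) = t • fderiv ℝ (H f d) z) ∧
    fderiv ℝ (H f d) 0 = 0

/-- HDB: Hölder continuity on the annulus.  Proof: product rule,
`DH z = exp (S z) (‖z‖² DS z + 2 Re ⟨z, ·⟩)`; on the annulus `S` is bounded and Lipschitz
(for `‖z - z'‖ < 1/4` and `1 ≤ ‖z‖` the segment lies in `1/2 < ‖·‖`; otherwise by boundedness), so all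
factors are bounded and `a`-Hölder.  Needs SDF SHL FEQ HDA. -/
def HDBStmt : Prop :=
  ∀ (n : ℕ) (f : E n → E n) (d : ℕ) (η C θ a : ℝ), Hyp f d η C θ a → ∃ L : ℝ, 0 < L ∧
    ∀ z z' : E n, ‖z‖ = 1 → 5 / 8 < ‖z'‖ → ‖z'‖ < 3 / 2 → ‖fderiv ℝ (H f d) z'‖ ≤ L ∧
      ‖fderiv ℝ (H f d) z - fderiv ℝ (H f d) z'‖ ≤ L * ‖z - z'‖ ^ a

/-- HHL: the derivative of `H` is locally `a`-Hölder.  Proof: `‖DH z‖ ≤ L ‖z‖`.  Let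
`‖w‖ ≤ ‖z‖ = t ≤ R`.  If `‖z - w‖ ≥ 3 t / 8` the difference is at most `2 L t ≤ 6 L ‖z - w‖`, and
`‖z - w‖ ≤ (2R)^(1-a) ‖z - w‖^a`.  Otherwise scale by `1 / t` (HDA) and use HDB.
Needs HDA HDB. -/
def HHLStmt : Prop :=
  ∀ (n : ℕ) (f : E n → E n) (d : ℕ) (η C θ a : ℝ), Hyp f d η C θ a → ∀ R : ℝ, ∃ L : ℝ,
    ∀ z w : E n, ‖z‖ ≤ R → ‖w‖ ≤ R →
      ‖fderiv ℝ (H f d) z - fderiv ℝ (H f d) w‖ ≤ L * ‖z - w‖ ^ a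

/-- DOM: the domain.  Proof: `ρ = H - 1`.  `C¹`: `contDiff_one_iff_fderiv`, HDA, HHL.  Bounded:
`m ‖z‖² ≤ H z < 1`.  Connected: star-shaped at `0` (`H (t z) = t² H z`).  `dρ ≠ 0` where `H = 1`: the
derivative in direction `z` is `2 H z = 2`.  Proper: for `L ⊆ D` compact `H ≤ p < 1` on `L`, and
`H z ^ d ≤ p` if `f z ∈ L`; so `D ∩ f ⁻¹' L = {H ≤ p'} ∩ f ⁻¹' L` is closed and bounded.
`f (ω z) = f z` for `ω = exp (2 π i / d) ≠ 1`, `z ≠ 0` small.  Needs HPR HDA HHL. -/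
def DOMStmt : Prop :=
  ∀ (n : ℕ) (f : E n → E n) (d : ℕ) (η C θ a : ℝ), Hyp f d η C θ a →
    ∃ ρ : E n → ℝ, ContDiff ℝ 1 ρ ∧
      (∀ R : ℝ, ∃ L : ℝ, ∀ z w : E n, ‖z‖ ≤ R → ‖w‖ ≤ R →
        ‖fderiv ℝ ρ z - fderiv ℝ ρ w‖ ≤ L * ‖z - w‖ ^ a) ∧
      (∀ z, ρ z = 0 → fderiv ℝ ρ z ≠ 0) ∧ (∀ (c : ℂ) (z : E n), ‖c‖ ≤ 1 → ρ z < 0 → ρ (c • z) < 0) ∧
      Bornology.IsBounded {z | ρ z < 0} ∧ IsConnected {z | ρ z < 0} ∧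
      MapsTo f {z | ρ z < 0} {z | ρ z < 0} ∧
      (∀ L : Set (E n), L ⊆ {z | ρ z < 0} → IsCompact L → IsCompact ({z | ρ z < 0} ∩ f ⁻¹' L)) ∧
      ∃ z w : E n, ρ z < 0 ∧ ρ w < 0 ∧ z ≠ w ∧ f z = f w

/-- THM: the theorem.  Proof: `η`, `C` from CON, `κ = C / η`, `d` from EXD, `f = fm d T w` from CON,
`Hyp` by FDR TRA with `θ = κ √d`, DOM.  Needs CON FDR TRA EXD DOM. -/
def THMStmt : Prop :=
  ∀ (n : ℕ) (a : ℝ), 2 ≤ n → 0 < a → a < 1 →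
    ∃ (d : ℕ) (T : Finset (E n)) (w : E n → E n) (ρ : E n → ℝ), 2 ≤ d ∧ ContDiff ℝ 1 ρ ∧
      (∀ R : ℝ, ∃ L : ℝ, ∀ z w : E n, ‖z‖ ≤ R → ‖w‖ ≤ R →
        ‖fderiv ℝ ρ z - fderiv ℝ ρ w‖ ≤ L * ‖z - w‖ ^ a) ∧
      (∀ z, ρ z = 0 → fderiv ℝ ρ z ≠ 0) ∧ (∀ (c : ℂ) (z : E n), ‖c‖ ≤ 1 → ρ z < 0 → ρ (c • z) < 0) ∧
      Bornology.IsBounded {z | ρ z < 0} ∧ IsConnected {z | ρ z < 0} ∧
      MapsTo (fm d T w) {z | ρ z < 0} {z | ρ z < 0} ∧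
      (∀ L : Set (E n), L ⊆ {z | ρ z < 0} → IsCompact L →
        IsCompact ({z | ρ z < 0} ∩ fm d T w ⁻¹' L)) ∧
      ∃ z y : E n, ρ z < 0 ∧ ρ y < 0 ∧ z ≠ y ∧ fm d T w z = fm d T w y

end Pool.CBE
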